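import Mathlib
import Pool.Agent.Lib.MP_8fff0f_ag.Gr4

set_option autoImplicit false

namespace Pool.Agent.Results.MP_8fff0f_ag.AllLargeGroups

/-- For every finite abelian group `G` with more than `420000` elements, every generating set
of the toric ideal of the group-based model on the tripod contains a polynomial of degree
greater than `|G|`. -/
theorem result (G : Type) [AddCommGroup G] [Fintype G] (hG : 420000 < Fintype.card G)
    (S : Set (MvPolynomial {g : Fin 3 → G // ∑ i, g i = 0} ℂ))
    (hS : Ideal.span S =
      RingHom.ker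
        (MvPolynomial.aeval
          (fun g : {g : Fin 3 → G // ∑ i, g i = 0} =>
            ∏ i : Fin 3, (MvPolynomial.X (i, g.1 i) : MvPolynomial (Fin 3 × G) ℂ)) :
          MvPolynomial {g : Fin 3 → G // ∑ i, g i = 0} ℂ →ₐ[ℂ] MvPolynomial (Fin 3 × G) ℂ)) :
    ∃ p ∈ S, Fintype.card G < p.totalDegree :=
  Pool.Agent.Lib.MP_8fff0f_ag.every_group_gt hG S hS

end Pool.Agent.Results.MP_8fff0f_ag.AllLargeGroups
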