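import Mathlib
import Pool.Agent.Lib.MP_8fff0f_ag.Data

set_option autoImplicit false

namespace Pool.Agent.Results.MP_8fff0f_ag.Cyclic761

/-- For `G = ℤ/761`, every generating set of the toric ideal of the group-based model on the
tripod contains a polynomial of degree at least `764 > |G|`. -/
theorem result
    (S : Set (MvPolynomial {g : Fin 3 → ZMod 761 // ∑ i, g i = 0} ℂ))
    (hS : Ideal.span S =
      RingHom.ker
        (MvPolynomial.aeval
          (fun g : {g : Fin 3 → ZMod 761 // ∑ i, g i = 0} =>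
            ∏ i : Fin 3,
              (MvPolynomial.X (i, g.1 i) : MvPolynomial (Fin 3 × ZMod 761) ℂ)) :
          MvPolynomial {g : Fin 3 → ZMod 761 // ∑ i, g i = 0} ℂ →ₐ[ℂ]
            MvPolynomial (Fin 3 × ZMod 761) ℂ)) :
    ∃ p ∈ S, 764 ≤ p.totalDegree := by
  by_contra h
  push Not at h
  exact Pool.Agent.Lib.MP_8fff0f_ag.zmod_not_generated 763 (by norm_num)
    ⟨S, fun p hp => Nat.lt_succ_iff.mp (h p hp), hS⟩

end Pool.Agent.Results.MP_8fff0f_ag.Cyclic761
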